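import Mathlib
import Pool.Agent.TH202.Defs

/-!
# Normal proper algebraic spaces, and weak log canonical models among them

Let `K` be a finitely generated field over `ℂ`. A normal compact complex analytic space `Y` that is
bimeromorphic to a projective variety with function field `K` is a Moishezon space, hence (Artin)
the analytification of a normal proper algebraic space over `ℂ` with function field `K`. Such a
space is described by an étale atlas, that is, by normal affine varieties `U_i` with étale maps
`U_i → Y` that cover `Y`. The function field `L_i` of `U_i` is a finite extension of `K`, the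
properness of `Y` (with the surjectivity of the atlas) says that all valuations `v` of `K` extend to
a valuation of some `L_i` with a centre on `U_i`, and the divisors of `Y` and their local equations
are read off from the `U_i`. As in `Pool.Agent.TH202.Defs`, divisors are treated as b-divisors, that
is, as real valued functions on the set of valuations of `K`.
-/

set_option autoImplicit false

namespace Pool.Agent.Q42.KM

open Pool.Agent.H436R3.Fol Pool.Agent.TH202

/-- A normal affine variety `U` whose function field `L` is a finite extension of `K`. -/
structure Chart (K : Type) [Field K] [Algebra ℂ K] where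
  L : Type
  field : Field L
  algC : Algebra ℂ L
  algK : Algebra K L
  tower : IsScalarTower ℂ K L
  fin : FiniteDimensional K L
  U : NormalAffine L

attribute [instance] Chart.field Chart.algC Chart.algK Chart.tower Chart.fin

variable {K : Type} [Field K] [Algebra ℂ K]

/-- The valuation `w` of `L` lies over the valuation `v` of `K`, with ramification index `e`. -/
def Over {C : Chart K} (w : DVal C.L) (v : DVal K) (e : ℕ) : Prop :=
  0 < e ∧ ∀ f : K, f ≠ 0 → w.ord (algebraMap K C.L f) = e * v.ord f

/-- The valuation `w` of `L` has a centre on the affine variety `U`: `O(U) ⊆ O_w`. -/
def Chart.HasCentre (C : Chart K) (w : DVal C.L) : Prop := ∀ f ∈ C.U.R, w.Reg f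

variable (K) in
/-- A normal proper algebraic space `Y` with function field `K`, given by an atlas `U_i → Y` of
normal affine varieties (quasi-finite and dominant over `Y`; for an étale atlas all ramification
indices at the prime divisors of the `U_i` are `1`, but this is not required). The condition
`proper` holds by the valuative criterion: all valuations of `K` have a centre on `Y`, and over a
point of `Y` there is a point of some chart. -/
structure AlgSpace where
  ι : Type
  chart : ι → Chart K
  proper : ∀ v : DVal K, ∃ (i : ι) (w : DVal (chart i).L) (e : ℕ),
    Over w v e ∧ (chart i).HasCentre w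

/-- `v` is the valuation of a prime divisor on `Y`: some chart `U_i` has a prime divisor with
valuation `w` over `v`. -/
def AlgSpace.Prime (Y : AlgSpace K) (v : DVal K) : Prop :=
  ∃ (i : Y.ι) (w : DVal (Y.chart i).L) (e : ℕ), Over w v e ∧ IsLocalRing' (Y.chart i).U.R w

/-- The function `E` is the b-divisor of the pull-backs of an `ℝ`-Cartier divisor on `Y`: near every
closed point `p` of a chart `U`, its pull-back to `U` is a real linear combination `P` of principal
divisors, that is, the pull-back of `E` has the multiplicity `P w` at all valuations `w` of the
function field of `U` whose centre contains `p`. -/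
def AlgSpace.RCar (Y : AlgSpace K) (E : DVal K → ℝ) : Prop :=
  ∀ (i : Y.ι) (p : Ideal (Y.chart i).U.R), p.IsMaximal → ∃ P ∈ Prin (Y.chart i).L,
    ∀ (w : DVal (Y.chart i).L) (v : DVal K) (e : ℕ), Over w v e → (Y.chart i).HasCentre w →
      Through (Y.chart i).U w p → e * E v = P w

variable {d : ℕ}

/-- `E` is the b-divisor of the pull-backs of the divisor `K_Y + B + β_Y`, which is `ℝ`-Cartier. The
canonical divisor is given by a basis `T` of the rational vector fields. -/
def AlgSpace.Adjoint (Y : AlgSpace K) (T : Foliation K d) (B β E : DVal K → ℝ) : Prop :=
  Y.RCar E ∧ ∀ w, Y.Prime w → ∀ n : ℤ, IsCanOrd T w n → E w = n + B w + β w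

/-- `Y` is a weak log canonical model of `(X, B + β)`: the map `X ⇢ Y` does not extract divisors,
`K_Y + B + β_Y` is `ℝ`-Cartier (with b-divisor `E`), its pull-back to some projective variety `W` is
nef, and the log discrepancies of the contracted prime divisors do not decrease. -/
def IsWeakLCSpace (T : Foliation K d) (X : Model K) (B β D : DVal K → ℝ) (Y : AlgSpace K)
    (E : DVal K → ℝ) : Prop :=
  (∀ w, Y.Prime w → IsPrimeOn X w) ∧ Y.Adjoint T B β E ∧ (∃ W : Model K, IsNef W E) ∧
  ∀ w, IsPrimeOn X w → ¬ Y.Prime w → E w ≤ D w

end Pool.Agent.Q42.KM
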