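import Mathlib
import Pool.Agent.TH202.PrimeOf
import Pool.Agent.Q42.KM.Defs

/-!
# Local algebra on a normal affine variety
-/

set_option autoImplicit false

namespace Pool.Agent.Q42.KM

open Pool.Agent.H436R3.Fol Pool.Agent.TH202 MvPolynomial Cardinal

variable {L : Type} [Field L] [Algebra ℂ L] {U : NormalAffine L} {p : Ideal U.R}

/-- membership in the local ring -/
def LMem (U : NormalAffine L) (p : Ideal U.R) (f : L) : Prop := ∃ s : U.R, s ∉ p ∧ (s : L) * f ∈ U.R

theorem one_notMem (hp : p.IsPrime) : (1 : U.R) ∉ p := fun h =>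
  hp.ne_top ((Ideal.eq_top_iff_one _).2 h)

theorem lmem_of_R (hp : p.IsPrime) {f : L} (hf : f ∈ U.R) : LMem U p f :=
  ⟨1, one_notMem hp, by rw [OneMemClass.coe_one, one_mul]; exact hf⟩

theorem lmem_mul (hp : p.IsPrime) {f g : L} (hf : LMem U p f) (hg : LMem U p g) :
    LMem U p (f * g) := by
  obtain ⟨s, hs, hf⟩ := hf
  obtain ⟨t, ht, hg⟩ := hg
  refine ⟨s * t, fun h => (hp.mem_or_mem h).elim hs ht, ?_⟩
  have h1 : ((s * t : U.R) : L) * (f * g) = ((s : L) * f) * ((t : L) * g) := by
    push_cast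
    ring
  rw [h1]
  exact mul_mem hf hg

theorem lmem_add (hp : p.IsPrime) {f g : L} (hf : LMem U p f) (hg : LMem U p g) :
    LMem U p (f + g) := by
  obtain ⟨s, hs, hf⟩ := hf
  obtain ⟨t, ht, hg⟩ := hg
  refine ⟨s * t, fun h => (hp.mem_or_mem h).elim hs ht, ?_⟩
  have h1 : ((s * t : U.R) : L) * (f + g) = (t : L) * ((s : L) * f) + (s : L) * ((t : L) * g) := by
    push_cast
    ring
  rw [h1]
  exact add_mem (mul_mem t.2 hf) (mul_mem s.2 hg)

theorem lmem_inv {s : U.R} (hs : s ∉ p) : LMem U p (s : L)⁻¹ := by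
  refine ⟨s, hs, ?_⟩
  have h0 : (s : L) ≠ 0 := by
    intro h0
    apply hs
    have : s = 0 := Subtype.ext h0
    rw [this]
    exact p.zero_mem
  rw [mul_inv_cancel₀ h0]
  exact one_mem _

/-- The local ring at a point. -/
def loc (hp : p.IsPrime) : Subalgebra ℂ L where
  carrier := {f | LMem U p f}
  mul_mem' := lmem_mul hp
  add_mem' := lmem_add hp
  algebraMap_mem' := fun c => lmem_of_R hp (U.R.algebraMap_mem c)

theorem mem_loc {hp : p.IsPrime} {f : L} : f ∈ loc hp ↔ LMem U p f := Iff.rfl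

/-- regular functions at a point are regular along valuations through the point -/
theorem reg_of_lmem {v : DVal L} (hv : ∀ f ∈ U.R, v.Reg f) (hvp : ∀ s : U.R, v.Pos (s : L) → s ∈ p)
    {f : L} (hf : LMem U p f) : v.Reg f := by
  obtain ⟨s, hs, hf⟩ := hf
  have h0 : (s : L) ≠ 0 := by
    intro h0
    apply hs
    have : s = 0 := Subtype.ext h0
    rw [this]
    exact p.zero_mem
  by_cases hf0 : f = 0
  · left; exact hf0
  right
  have h3 := (hv _ hf).resolve_left (mul_ne_zero h0 hf0)
  rw [v.map_mul _ _ h0 hf0] at h3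
  have h4 : ¬ v.Pos (s : L) := fun h => hs (hvp s h)
  have h5 : ¬ 0 < v.ord (s : L) := fun h => h4 (Or.inr h)
  omega

theorem exists_denom' (hp : p.IsPrime) (s : Finset L) (hs : ∀ f ∈ s, LMem U p f) :
    ∃ t : U.R, t ∉ p ∧ ∀ f ∈ s, (t : L) * f ∈ U.R := by
  classical
  induction s using Finset.induction_on with
  | empty => exact ⟨1, one_notMem hp, fun f hf => absurd hf (Finset.notMem_empty f)⟩
  | insert a s _ ih =>
    obtain ⟨t, ht, h⟩ := ih fun f hf => hs f (Finset.mem_insert_of_mem hf)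
    obtain ⟨u, hu, h'⟩ := hs a (Finset.mem_insert_self a s)
    refine ⟨t * u, fun h1 => (hp.mem_or_mem h1).elim ht hu, fun f hf => ?_⟩
    rcases Finset.mem_insert.1 hf with rfl | hf
    · have : ((t * u : U.R) : L) * f = (t : L) * ((u : L) * f) := by push_cast; ring
      rw [this]
      exact mul_mem t.2 h'
    · have : ((t * u : U.R) : L) * f = (u : L) * ((t : L) * f) := by push_cast; ring
      rw [this]
      exact mul_mem u.2 (h f hf)

theorem mem_U_of_root (q : Polynomial L) (hq : q.Monic)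
    (h : ∀ j, q.coeff j ∈ U.R) {u : L} (hu : q.eval u = 0) : u ∈ U.R := by
  apply U.normal
  have hs : (q.coeffs : Set L) ⊆ U.R.toSubring := by
    intro y hy
    rw [Finset.mem_coe, Polynomial.mem_coeffs_iff] at hy
    obtain ⟨j, _, rfl⟩ := hy
    exact h j
  refine ⟨q.toSubring U.R.toSubring hs, (Polynomial.monic_toSubring q _ hs).2 hq, ?_⟩
  have h1 : (q.toSubring U.R.toSubring hs).map (algebraMap U.R.toSubring L) = q := by
    ext j
    rw [Polynomial.coeff_map]
    exact Polynomial.coeff_toSubring _ _ _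
  have h2 : Polynomial.eval₂ (algebraMap U.R.toSubring L) u
      (q.toSubring U.R.toSubring hs) = 0 := by
    rw [← Polynomial.eval_map, h1]
    exact hu
  exact h2

theorem lmem_of_root (hp : p.IsPrime) (q : Polynomial L) (hq : q.Monic)
    (h : ∀ j, LMem U p (q.coeff j)) {u : L} (hu : q.eval u = 0) : LMem U p u := by
  obtain ⟨t, ht, h'⟩ := exists_denom' hp q.coeffs fun f hf => by
    rw [Polynomial.mem_coeffs_iff] at hf
    obtain ⟨j, _, rfl⟩ := hf
    exact h j
  refine ⟨t, ht, ?_⟩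
  refine mem_U_of_root (q.scaleRoots (t : L)) (by rw [Polynomial.monic_scaleRoots_iff]; exact hq)
    (fun j => ?_) ?_
  · rw [Polynomial.coeff_scaleRoots]
    by_cases hj0 : q.coeff j = 0
    · rw [hj0, zero_mul]
      exact zero_mem _
    have hj1 : q.coeff j ∈ q.coeffs := Polynomial.coeff_mem_coeffs hj0
    have hj2 : j ≤ q.natDegree := Polynomial.le_natDegree_of_ne_zero hj0
    rcases hj2.eq_or_lt with rfl | hj3
    · rw [Nat.sub_self, pow_zero, mul_one, hq.coeff_natDegree]
      exact one_mem _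
    · obtain ⟨k, hk⟩ := Nat.exists_eq_add_of_lt hj3
      have : q.natDegree - j = k + 1 := by omega
      rw [this, pow_succ, mul_comm, mul_assoc]
      exact mul_mem (pow_mem t.2 _) (h' _ hj1)
  · rw [Polynomial.scaleRoots_eval_mul, hu, mul_zero]

/-- The centre of a valuation. -/
def cen (U : NormalAffine L) (v : DVal L) (h : ∀ f ∈ U.R, v.Reg f) : Ideal U.R := cenIdeal v U.R h

theorem cen_prime (v : DVal L) (h : ∀ f ∈ U.R, v.Reg f) : (cen U v h).IsPrime :=
  cenIdeal_prime v U.R h

theorem mem_cen {v : DVal L} {h : ∀ f ∈ U.R, v.Reg f} {s : U.R} :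
    s ∈ cen U v h ↔ v.Pos (s : L) := Iff.rfl

/-- Hartogs for the local ring. -/
theorem hart (hp : p.IsPrime) {F : L} (h : ∀ w : DVal L, IsLocalRing' U.R w →
    (∀ s : U.R, w.Pos (s : L) → s ∈ p) → w.Reg F) : LMem U p F :=
  Pool.Agent.TH670.C8_HARTP.hartogs_local U.fg U.frac U.normal p hp h

theorem ord_zprod' (v : DVal L) {m : ℕ} (g : Fin m → L) (hg : ∀ i, g i ≠ 0) (e : Fin m → ℤ) :
    v.ord (∏ i, g i ^ e i) = ∑ i, v.ord (g i) * e i := by
  rw [v.ord_prod _ _ fun i _ => zpow_ne_zero _ (hg i)]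
  refine Finset.sum_congr rfl fun i _ => ?_
  rw [v.ord_zpow (hg i), mul_comm]

/-- A real principal divisor that is effective near a point has nonnegative order at all
valuations through the point. -/
theorem real_hartogs' (hp : p.IsPrime) {P : DVal L → ℝ} (hP : P ∈ Prin L)
    (h : ∀ w, IsLocalRing' U.R w → (∀ s : U.R, w.Pos (s : L) → s ∈ p) → 0 ≤ P w) (v : DVal L)
    (hv : ∀ f ∈ U.R, v.Reg f) (hvp : ∀ s : U.R, v.Pos (s : L) → s ∈ p) : 0 ≤ P v := by
  obtain ⟨m, r, g, hg, hPv⟩ := exists_rep hP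
  rw [hPv]
  have hmain := Pool.Agent.TH84.C8_CONE.cone_approx
    (ι := {w : DVal L // IsLocalRing' U.R w ∧ ∀ s : U.R, w.Pos (s : L) → s ∈ p})
    (fun w i => w.1.ord (g i)) ?_ (fun i => v.ord (g i)) ?_ r ?_
  · calc (0 : ℝ) ≤ ∑ i, ((v.ord (g i) : ℤ) : ℝ) * r i := hmain
      _ = ∑ i, r i * (v.ord (g i) : ℝ) := Finset.sum_congr rfl fun i _ => mul_comm _ _
  · -- finiteness
    choose Z hZ hZ' using fun i => Pool.Agent.TH670.C8_HARTP.finite_ord_ne U.fg U.frac
      U.normal (g i) (hg i)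
    have hfin : (insert (0 : Fin m → ℤ) ((fun (w : DVal L) (i : Fin m) => w.ord (g i)) ''
        (⋃ i, Z i))).Finite :=
      ((Set.finite_iUnion hZ).image _).insert _
    refine hfin.subset ?_
    rintro _ ⟨w, rfl⟩
    by_cases h0 : ∀ i, w.1.ord (g i) = 0
    · left
      funext i
      exact h0 i
    · push Not at h0
      obtain ⟨i, hi⟩ := h0
      obtain ⟨z, hz, hwz⟩ := hZ' i w.1 w.2.1 hi
      right
      refine ⟨z, Set.mem_iUnion.2 ⟨i, hz⟩, ?_⟩
      funext j
      exact (hwz _ (hg j)).symm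
  · intro e he
    have hF0 : ∏ i, g i ^ e i ≠ 0 := Finset.prod_ne_zero_iff.2 fun i _ => zpow_ne_zero _ (hg i)
    have hF : LMem U p (∏ i, g i ^ e i) := by
      refine hart hp ?_
      intro w hw hwx
      right
      rw [ord_zprod' w g hg]
      exact he ⟨w, hw, hwx⟩
    have h1 := (reg_of_lmem hv hvp hF).resolve_left hF0
    rwa [ord_zprod' v g hg] at h1
  · intro w
    have := h w.1 w.2.1 w.2.2
    rw [hPv] at this
    calc (0 : ℝ) ≤ ∑ i, r i * (w.1.ord (g i) : ℝ) := this
      _ = ∑ i, ((w.1.ord (g i) : ℤ) : ℝ) * r i := Finset.sum_congr rfl fun i _ => mul_comm _ _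

/-- A criterion for being a prime divisor on an affine threefold. -/
theorem primeOf' (a b c : L) (hind : AlgebraicIndependent ℂ ![a, b, c])
    (halg : ∀ f : L, IsAlgebraic (Algebra.adjoin ℂ (Set.range ![a, b, c])) f)
    (v : DVal L) (hv : ∀ q : MvPolynomial (Fin 2) ℂ, q ≠ 0 → v.ord (aeval ![a, b] q) = 0)
    (hreg : ∀ f ∈ U.R, v.Reg f) (ha : LMem U (cen U v hreg) a) (hb : LMem U (cen U v hreg) b) :
    IsLocalRing' U.R v := by
  set p := cen U v hreg with hpdef
  have hp : p.IsPrime := cen_prime v hreg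
  have hx : ∀ s : U.R, s ∈ p ↔ v.Pos (s : L) := fun s => Iff.rfl
  -- a nonzero element of the centre
  obtain ⟨π, hπ, hπ1⟩ := v.surj
  obtain ⟨u, t, hu, ht, ht0, hut⟩ := U.frac π
  have hu0 : u ≠ 0 := by rw [← hut]; exact mul_ne_zero hπ ht0
  have hup : v.Pos u := by
    right
    rw [← hut, v.map_mul _ _ hπ ht0, hπ1]
    have := v.ord_nonneg ht0 (hreg t ht)
    omega
  -- a prime divisor through the centre on which `u` vanishes
  obtain ⟨w, hw, hwx, hwu⟩ : ∃ w : DVal L, IsLocalRing' U.R w ∧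
      (∀ s : U.R, w.Pos (s : L) → s ∈ p) ∧ ¬ w.Reg u⁻¹ := by
    by_contra hc
    push Not at hc
    obtain ⟨s, hs, hsu⟩ := hart (U := U) (p := p) hp (F := u⁻¹) fun w hw hwx => hc w hw hwx
    have h1 := hreg _ hsu
    have hs0 : (s : L) ≠ 0 := by
      intro h0
      exact hs ((hx s).2 (Or.inl h0))
    have h2 := h1.resolve_left (mul_ne_zero hs0 (inv_ne_zero hu0))
    rw [v.map_mul _ _ hs0 (inv_ne_zero hu0), v.ord_inv hu0] at h2
    have h3 : ¬ 0 < v.ord (s : L) := fun h => hs ((hx s).2 (Or.inr h))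
    have h4 := hup.resolve_left hu0
    omega
  have hthrw : ∀ f, LMem U p f → w.Reg f := fun f hf => reg_of_lmem hw.1 hwx hf
  have hwupos : w.Pos u := by
    right
    by_contra hc
    apply hwu
    right
    rw [w.ord_inv hu0]
    omega
  by_cases hkey : ∀ f ∈ U.R, v.Pos f → w.Pos f
  · -- the valuations agree
    have hag : ∀ {f : L}, f ≠ 0 → w.ord f = v.ord f := fun hf => agree_of_key hw hreg hkey hf
    refine ⟨hreg, fun f hf => ?_⟩
    have hf' : w.Reg f := by
      by_cases h0 : f = 0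
      · exact Or.inl h0
      · right
        rw [hag h0]
        exact hf.resolve_left h0
    obtain ⟨p, q, hp, hq, hq0, hq1, hpq⟩ := hw.2 f hf'
    exact ⟨p, q, hp, hq, hq0, by rw [← hag hq0]; exact hq1, hpq⟩
  · exfalso
    push Not at hkey
    obtain ⟨h, hh, hvh, hwh⟩ := hkey
    have hh0 : h ≠ 0 := fun h0 => hwh (Or.inl h0)
    have hwh0 : w.ord h = 0 := by
      have h1 := w.ord_nonneg hh0 (hw.1 h hh)
      have h2 : ¬ 0 < w.ord h := fun h2 => hwh (Or.inr h2)
      omega
    set S2 := Algebra.adjoin ℂ (Set.range ![a, b]) with hS2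
    have hS2v : ∀ q ∈ S2, q ≠ 0 → v.ord q = 0 := by
      intro q hq hq0
      rw [hS2, Algebra.adjoin_range_eq_range_aeval] at hq
      obtain ⟨q', rfl⟩ := hq
      refine hv q' ?_
      rintro rfl
      exact hq0 (map_zero _)
    have hS2r : ∀ q : S2, v.Reg (algebraMap S2 L q) := by
      intro q
      by_cases h0 : (q : L) = 0
      · exact Or.inl h0
      · exact Or.inr (hS2v q q.2 h0).ge
    have hS2p : ∀ q : S2, q ≠ 0 → ¬ v.Pos (algebraMap S2 L q) := by
      rintro q hq (h1 | h1)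
      · exact hq (Subtype.ext h1)
      · change 0 < v.ord (q : L) at h1
        rw [hS2v q q.2 fun h0 => hq (Subtype.ext h0)] at h1
        exact lt_irrefl _ h1
    -- `a, b, h` are algebraically independent
    have hab : AlgebraicIndependent ℂ ![a, b] := by
      rw [algebraicIndependent_iff]
      intro q hq
      by_contra hq0
      have h1 := hind
      rw [algebraicIndependent_iff] at h1
      have h2 := h1 (rename (Fin.castSucc : Fin 2 → Fin 3) q) (by
        rw [aeval_rename]
        have h7 : (![a, b, c] ∘ (Fin.castSucc : Fin 2 → Fin 3)) = ![a, b] := by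
          funext j
          fin_cases j <;> rfl
        rw [h7]
        exact hq)
      exact hq0 ((map_eq_zero_iff _ (rename_injective _ (Fin.castSucc_injective 2))).1 h2)
    have htr : Transcendental S2 h := by
      rintro ⟨P, hP, hPh⟩
      obtain ⟨q, hq, hqv⟩ := res_drop v (algebraMap S2 L) hS2r hh0 hvh hP hPh
      exact hS2p q hq hqv
    set x3 : Option (Fin 2) → L := fun o => o.elim h ![a, b] with hx3
    have hind3 : AlgebraicIndependent ℂ x3 := (hab.option_iff_transcendental h).2 htr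
    have hbas : IsTranscendenceBasis ℂ ![a, b, c] := by
      rw [hind.isTranscendenceBasis_iff_isAlgebraic]
      exact ⟨halg⟩
    have htrd : Algebra.trdeg ℂ L = 3 := by
      rw [← hbas.cardinalMk_eq_trdeg]
      simp
    have hbas3 : IsTranscendenceBasis ℂ x3 := by
      refine hind3.isTranscendenceBasis_of_trdeg_le ?_ ?_
      · rw [htrd]
        exact_mod_cast Cardinal.natCast_lt_aleph0 (n := 3)
      · rw [htrd]
        simp
    have halg3 := hbas3.isAlgebraic
    set S3 := Algebra.adjoin ℂ (Set.range x3) with hS3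
    have hlocS3 : S3 ≤ loc hp := by
      rw [hS3]
      refine Algebra.adjoin_le ?_
      rintro _ ⟨o, rfl⟩
      rcases o with _ | o
      · exact lmem_of_R hp hh
      · fin_cases o
        · exact ha
        · exact hb
    have hS3w : ∀ q : S3, w.Reg (algebraMap S3 L q) := fun q => hthrw _ (hlocS3 q.2)
    obtain ⟨P, hP, hPu⟩ := halg3.1 u
    obtain ⟨q3, hq3, hq3w⟩ := res_drop w (algebraMap S3 L) hS3w hu0 hwupos hP hPu
    -- `q3` is a polynomial in `h` over `S2`
    have hpoly : ∀ q ∈ S3, ∃ P : Polynomial S2, P.eval₂ (algebraMap S2 L) h = q := by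
      intro q hq
      refine Algebra.adjoin_induction (p := fun q _ => ∃ P : Polynomial S2,
        P.eval₂ (algebraMap S2 L) h = q) ?_ ?_ ?_ ?_ hq
      · rintro _ ⟨o, rfl⟩
        rcases o with _ | o
        · exact ⟨Polynomial.X, Polynomial.eval₂_X _ _⟩
        · refine ⟨Polynomial.C ⟨![a, b] o, Algebra.subset_adjoin ⟨o, rfl⟩⟩, ?_⟩
          rw [Polynomial.eval₂_C]
          rfl
      · intro c
        refine ⟨Polynomial.C (algebraMap ℂ S2 c), ?_⟩
        rw [Polynomial.eval₂_C]
        rfl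
      · rintro f g _ _ ⟨P, rfl⟩ ⟨Q, rfl⟩
        exact ⟨P + Q, Polynomial.eval₂_add _ _⟩
      · rintro f g _ _ ⟨P, rfl⟩ ⟨Q, rfl⟩
        exact ⟨P * Q, Polynomial.eval₂_mul _ _⟩
    obtain ⟨P3, hP3⟩ := hpoly q3 q3.2
    have hq30 : (q3 : L) ≠ 0 := fun h0 => hq3 (Subtype.ext h0)
    have hP30 : P3 ≠ 0 := by
      rintro rfl
      rw [Polynomial.eval₂_zero] at hP3
      exact hq30 hP3.symm
    obtain ⟨k, Q, rfl, hQ0⟩ := trailing hP30
    set z := Q.eval₂ (algebraMap S2 L) h with hz
    rw [Polynomial.eval₂_mul, Polynomial.eval₂_pow, Polynomial.eval₂_X, ← hz] at hP3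
    have hz0 : z ≠ 0 := by
      intro h0
      rw [h0, mul_zero] at hP3
      exact hq30 hP3.symm
    have hzw : 0 < w.ord z := by
      have h1 := hq3w.resolve_left hq30
      change 0 < w.ord (q3 : L) at h1
      rw [← hP3, w.map_mul _ _ (pow_ne_zero _ hh0) hz0, w.ord_pow hh0, hwh0] at h1
      simpa using h1
    have hzx : LMem U p z := by
      have h1 : ∀ P : Polynomial S2, P.eval₂ (algebraMap S2 L) h ∈ loc hp := by
        intro P
        induction P using Polynomial.induction_on' with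
        | add p q hp hq => rw [Polynomial.eval₂_add]; exact add_mem hp hq
        | monomial n a =>
          rw [Polynomial.eval₂_monomial]
          refine mul_mem ?_ (pow_mem (mem_loc.2 (lmem_of_R hp hh)) n)
          have h2 : S2 ≤ loc hp := by
            rw [hS2]
            refine Algebra.adjoin_le ?_
            rintro _ ⟨o, rfl⟩
            fin_cases o
            · exact ha
            · exact hb
          exact h2 a.2
      exact h1 Q
    obtain ⟨t', ht', htz⟩ := hzx
    have ht0' : (t' : L) ≠ 0 := fun h0 => ht' ((hx t').2 (Or.inl h0))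
    have h1 : w.Pos ((t' : L) * z) := w.pos_mul_left (hw.1 _ t'.2) (Or.inr hzw)
    have h2 : v.Pos ((t' : L) * z) := (hx ⟨_, htz⟩).1 (hwx ⟨_, htz⟩ h1)
    have h3 : v.Pos z := by
      right
      have h4 := h2.resolve_left (mul_ne_zero ht0' hz0)
      rw [v.map_mul _ _ ht0' hz0] at h4
      have h5 : ¬ 0 < v.ord (t' : L) := fun h => ht' ((hx t').2 (Or.inr h))
      omega
    exact hS2p _ hQ0 (pos_coeff_zero v (algebraMap S2 L) hS2r hvh h3)

end Pool.Agent.Q42.KM
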