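import Mathlib
import Pool.Agent.Q42.KM.Aff
import Pool.Agent.TH202.NegB

/-!
# Valuations of a finite extension
-/

set_option autoImplicit false

namespace Pool.Agent.Q42.KM

open Pool.Agent.H436R3.Fol Pool.Agent.TH202

variable {K : Type} [Field K] [Algebra ℂ K] {C : Chart K}

theorem map_ne {f : K} (hf : f ≠ 0) : algebraMap K C.L f ≠ 0 :=
  (map_ne_zero_iff _ (algebraMap K C.L).injective).2 hf

/-- A valuation of the extension is not trivial on `K`. -/
theorem exists_pos (w : DVal C.L) : ∃ f : K, f ≠ 0 ∧ 0 < w.ord (algebraMap K C.L f) := by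
  by_contra hc
  push Not at hc
  have h0 : ∀ f : K, f ≠ 0 → w.ord (algebraMap K C.L f) = 0 := by
    intro f hf
    have h1 := hc f hf
    have h2 := hc f⁻¹ (inv_ne_zero hf)
    rw [map_inv₀, w.ord_inv (map_ne hf)] at h2
    omega
  have hreg : ∀ q : K, w.Reg (algebraMap K C.L q) := by
    intro q
    by_cases hq : q = 0
    · left; rw [hq, map_zero]
    · right; rw [h0 q hq]
  obtain ⟨π, hπ, hπ1⟩ := w.surj
  have halg : IsAlgebraic K π := Algebra.IsAlgebraic.isAlgebraic π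
  obtain ⟨P, hP, hPπ⟩ := halg
  obtain ⟨q, hq, hqp⟩ := res_drop w (algebraMap K C.L) hreg hπ (Or.inr (by omega)) hP hPπ
  have h1 := hqp.resolve_left (map_ne hq)
  rw [h0 q hq] at h1
  exact lt_irrefl _ h1

/-- The value group of the restriction. -/
def vgrp (w : DVal C.L) : AddSubgroup ℤ where
  carrier := {n | ∃ f : K, f ≠ 0 ∧ w.ord (algebraMap K C.L f) = n}
  add_mem' := by
    rintro _ _ ⟨f, hf, rfl⟩ ⟨g, hg, rfl⟩
    exact ⟨f * g, mul_ne_zero hf hg, by rw [map_mul, w.map_mul _ _ (map_ne hf) (map_ne hg)]⟩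
  zero_mem' := ⟨1, one_ne_zero, by rw [map_one, w.ord_one]⟩
  neg_mem' := by
    rintro _ ⟨f, hf, rfl⟩
    exact ⟨f⁻¹, inv_ne_zero hf, by rw [map_inv₀, w.ord_inv (map_ne hf)]⟩

theorem vgrp_gen (w : DVal C.L) : ∃ e : ℕ, 0 < e ∧ (∀ f : K, f ≠ 0 →
    (e : ℤ) ∣ w.ord (algebraMap K C.L f)) ∧ ∃ f : K, f ≠ 0 ∧ w.ord (algebraMap K C.L f) = e := by
  obtain ⟨a, ha⟩ := Int.subgroup_cyclic (vgrp w)
  have hmem : ∀ n, n ∈ vgrp w ↔ a ∣ n := by
    intro n
    rw [ha, ← AddSubgroup.zmultiples_eq_closure, Int.mem_zmultiples_iff]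
  have ha0 : a ≠ 0 := by
    rintro rfl
    obtain ⟨f, hf, h⟩ := exists_pos w
    have h1 : w.ord (algebraMap K C.L f) ∈ vgrp w := ⟨f, hf, rfl⟩
    rw [hmem, zero_dvd_iff] at h1
    omega
  refine ⟨a.natAbs, Int.natAbs_pos.2 ha0, fun f hf => ?_, ?_⟩
  · rw [Int.natAbs_dvd, ← hmem]
    exact ⟨f, hf, rfl⟩
  · have h1 : ((a.natAbs : ℕ) : ℤ) ∈ vgrp w := by
      rw [hmem]
      exact Int.dvd_natAbs_self
    exact h1

/-- Every valuation of the extension lies over a valuation of `K`. -/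
theorem exists_under (w : DVal C.L) : ∃ (v : DVal K) (e : ℕ), Over w v e := by
  obtain ⟨e, he, hdvd, f0, hf0, hf1⟩ := vgrp_gen w
  have hez : (0 : ℤ) < e := by exact_mod_cast he
  have hmul : ∀ f : K, f ≠ 0 → w.ord (algebraMap K C.L f) =
      e * (w.ord (algebraMap K C.L f) / e) := by
    intro f hf
    rw [Int.mul_ediv_cancel' (hdvd f hf)]
  refine ⟨⟨fun f => w.ord (algebraMap K C.L f) / e, ?_, ?_, ?_, ?_⟩, e, he, hmul⟩
  · intro f g hf hg
    have h1 := hmul (f * g) (mul_ne_zero hf hg)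
    have h2 := hmul f hf
    have h3 := hmul g hg
    rw [map_mul, w.map_mul _ _ (map_ne hf) (map_ne hg)] at h1
    rw [map_mul, w.map_mul _ _ (map_ne hf) (map_ne hg), Int.add_ediv_of_dvd_left (hdvd f hf)]
  · intro f g hf hg hfg
    have h1 := w.map_add _ _ (map_ne (C := C) hf) (map_ne (C := C) hg)
      (by rw [← map_add]; exact map_ne hfg)
    rw [← map_add] at h1
    rcases le_total (w.ord (algebraMap K C.L f)) (w.ord (algebraMap K C.L g)) with h | h
    · rw [min_eq_left h] at h1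
      exact (min_le_left _ _).trans (Int.ediv_le_ediv hez h1)
    · rw [min_eq_right h] at h1
      exact (min_le_right _ _).trans (Int.ediv_le_ediv hez h1)
  · refine ⟨f0, hf0, ?_⟩
    rw [hf1]
    exact Int.ediv_self hez.ne'
  · intro c hc
    have h1 : algebraMap K C.L (algebraMap ℂ K c) = algebraMap ℂ C.L c :=
      (IsScalarTower.algebraMap_apply ℂ K C.L c).symm
    rw [h1, w.const c hc]
    exact Int.zero_ediv _

/-- the pull-back of a real principal divisor -/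
theorem prin_pull {P : DVal K → ℝ} (hP : P ∈ Prin K) : ∃ Q ∈ Prin C.L,
    ∀ (w : DVal C.L) (v : DVal K) (e : ℕ), Over w v e → Q w = e * P v := by
  obtain ⟨m, r, g, hg, hPv⟩ := exists_rep hP
  refine ⟨∑ i, r i • dv (algebraMap K C.L (g i)), (Prin C.L).sum_mem fun i _ =>
    (Prin C.L).smul_mem _ (dv_mem (map_ne (hg i))), fun w v e h => ?_⟩
  rw [Finset.sum_apply, hPv, Finset.mul_sum]
  refine Finset.sum_congr rfl fun i _ => ?_
  rw [Pi.smul_apply, smul_eq_mul, dv, h.2 _ (hg i)]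
  push_cast
  ring

/-- the hyperplane class is bounded on an affine chart -/
theorem chart_bound (C : Chart K) (X : Model K) : ∃ b : C.L, b ≠ 0 ∧
    ∀ (w : DVal C.L) (v : DVal K) (e : ℕ), Over w v e → C.HasCentre w → e * X.H v ≤ w.ord b := by
  have hfr : ∀ j, ∃ a b : C.L, a ∈ C.U.R ∧ b ∈ C.U.R ∧ b ≠ 0 ∧
      algebraMap K C.L (X.ξ j / X.ξ 0) * b = a := fun j => C.U.frac _
  choose a b ha hb hb0 hab using hfr
  have hξ0 : algebraMap K C.L (X.ξ 0) ≠ 0 := map_ne (X.ne 0)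
  have hB : ∏ k, b k ≠ 0 := Finset.prod_ne_zero_iff.2 fun k _ => hb0 k
  refine ⟨(∏ k, b k) / algebraMap K C.L (X.ξ 0), div_ne_zero hB hξ0, fun w v e hwv hw => ?_⟩
  have he : (0 : ℝ) < e := by exact_mod_cast hwv.1
  rw [← le_div_iff₀' he]
  change Lin X.ξ v ≤ _
  rw [Lin_le_iff]
  intro j
  rw [le_div_iff₀' he]
  have hj0 : X.ξ j / X.ξ 0 ≠ 0 := div_ne_zero (X.ne j) (X.ne 0)
  have h1 : algebraMap K C.L (X.ξ j / X.ξ 0) * ∏ k, b k ∈ C.U.R := by
    rw [← Finset.mul_prod_erase Finset.univ b (Finset.mem_univ j), ← mul_assoc, hab j]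
    exact mul_mem (ha j) (Subalgebra.prod_mem _ fun k _ => hb k)
  have h2 := w.ord_nonneg (mul_ne_zero (map_ne hj0) hB) (hw _ h1)
  rw [w.map_mul _ _ (map_ne hj0) hB, hwv.2 _ hj0, v.ord_div (X.ne j) (X.ne 0)] at h2
  rw [w.ord_div hB hξ0, hwv.2 _ (X.ne 0)]
  have h3 : (0 : ℝ) ≤ ((e * (v.ord (X.ξ j) - v.ord (X.ξ 0)) + w.ord (∏ k, b k) : ℤ) : ℝ) := by
    exact_mod_cast h2
  push_cast at h3 ⊢
  linarith

end Pool.Agent.Q42.KM
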