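import Mathlib
import Pool.Agent.Q42.KM.Ext

/-!
# Domination of nef divisors on an algebraic space
-/

set_option autoImplicit false

namespace Pool.Agent.Q42.KM

open Pool.Agent.H436R3.Fol Pool.Agent.TH202

variable {K : Type} [Field K] [Algebra ℂ K]

/-- every valuation has a centre on the space, and near the centre an `ℝ`-Cartier divisor is
principal -/
theorem exists_local {Y : AlgSpace K} {D : DVal K → ℝ} (hD : Y.RCar D) (v : DVal K) :
    ∃ (i : Y.ι) (w : DVal (Y.chart i).L) (e : ℕ) (hw : ∀ f ∈ (Y.chart i).U.R, w.Reg f),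
      Over w v e ∧ ∃ P ∈ Prin (Y.chart i).L,
      ∀ (w' : DVal (Y.chart i).L) (v' : DVal K) (e' : ℕ), Over w' v' e' →
        (Y.chart i).HasCentre w' →
        (∀ s : (Y.chart i).U.R, w'.Pos (s : (Y.chart i).L) → s ∈ cen (Y.chart i).U w hw) →
        e' * D v' = P w' := by
  obtain ⟨i, w, e, hwv, hw⟩ := Y.proper v
  have hp := cen_prime (U := (Y.chart i).U) w hw
  obtain ⟨m, hm, hle⟩ := Ideal.exists_le_maximal _ hp.ne_top
  obtain ⟨P, hP, h⟩ := hD i m hm
  exact ⟨i, w, e, hw, hwv, P, hP, fun w' v' e' h1 h2 h3 => h w' v' e' h1 h2 fun s hs =>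
    hle (h3 s hs)⟩

/-- A nef divisor is dominated by an `ℝ`-Cartier divisor on an algebraic space if this holds on the
prime divisors of the space. -/
theorem dom' {X : Model K} {Y : AlgSpace K} {N D : DVal K → ℝ} (hN : IsNef X N)
    (hD : Y.RCar D) (h : ∀ w, Y.Prime w → N w ≤ D w) (v : DVal K) : N v ≤ D v := by
  obtain ⟨i, w, e, hw, hwv, Q, hQ, hQD⟩ := exists_local hD v
  obtain ⟨b, hb, hbH⟩ := chart_bound (Y.chart i) X
  have he : (0 : ℝ) < e := by exact_mod_cast hwv.1
  have key : ∀ δ : ℝ, 0 < δ → e * (N v - D v) ≤ δ * ((w.ord b : ℝ) - e * X.H v) := by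
    intro δ hδ
    obtain ⟨P, hP, hPle, hPv⟩ := nef_touch hN hδ v
    obtain ⟨P', hP', hPP'⟩ := prin_pull (C := Y.chart i) hP
    have h1 := real_hartogs' (cen_prime w hw) (P := Q + δ • dv b - P')
      ((Prin (Y.chart i).L).sub_mem ((Prin (Y.chart i).L).add_mem hQ
        ((Prin (Y.chart i).L).smul_mem _ (dv_mem hb))) hP') ?_ w hw fun s hs => hs
    · simp only [Pi.sub_apply, Pi.add_apply, Pi.smul_apply, smul_eq_mul, dv] at h1
      rw [hPP' w v e hwv, hPv, ← hQD w v e hwv hw fun s hs => hs] at h1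
      linarith
    · intro u hu hup
      obtain ⟨u', e', hu'⟩ := exists_under u
      have h2 := hPle u'
      have h3 := h u' ⟨i, u, e', hu', hu⟩
      have h4 := hbH u u' e' hu' hu.1
      have he' : (0 : ℝ) < e' := by exact_mod_cast hu'.1
      simp only [Pi.sub_apply, Pi.add_apply, Pi.smul_apply, smul_eq_mul, dv]
      rw [hPP' u u' e' hu', ← hQD u u' e' hu' hu.1 hup]
      have h5 := mul_le_mul_of_nonneg_left h4 hδ.le
      have h6 := mul_le_mul_of_nonneg_left h2 he'.le
      have h7 := mul_le_mul_of_nonneg_left h3 he'.le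
      nlinarith
  by_contra hc
  push Not at hc
  set A := e * (N v - D v) with hA
  have hApos : 0 < A := mul_pos he (by linarith)
  set C := (w.ord b : ℝ) - e * X.H v with hC
  have h1 := key (A / (2 * (|C| + 1))) (div_pos hApos (by positivity))
  have h2 : A / (2 * (|C| + 1)) * C ≤ A / 2 := by
    have h3 : A / (2 * (|C| + 1)) * C ≤ A / (2 * (|C| + 1)) * (|C| + 1) :=
      mul_le_mul_of_nonneg_left (by linarith [le_abs_self C]) (div_nonneg hApos.le (by positivity))
    have h4 : A / (2 * (|C| + 1)) * (|C| + 1) = A / 2 := by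
      have : |C| + 1 ≠ 0 := by positivity
      field_simp
    linarith
  linarith

end Pool.Agent.Q42.KM
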