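import Mathlib
import Pool.Agent.Q42.KM.Dom

/-!
# The irrational class does not descend below the strict transform of `c = 0`
-/

set_option autoImplicit false

namespace Pool.Agent.Q42.KM

open Pool.Agent.H436R3.Fol Pool.Agent.TH202 MvPolynomial

variable {K : Type} [Field K] [Algebra ℂ K]

theorem ThZ_over {C : Chart K} {d : Dat K} (s : Sq d) (k : ℕ) {w : DVal C.L} {v : DVal K} {e : ℕ}
    (h : Over w v e) : (e : ℤ) * ThZ s k v = max 0 (-w.ord (algebraMap K C.L (s.y k))) := by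
  rw [ThZ, h.2 _ (s.y_ne k), mul_max_of_nonneg _ _ (Int.natCast_nonneg e), mul_zero]
  congr 1
  ring

theorem b_chart {d : Dat K} (s : Sq d) (vS : DVal K) (hvS : IsS d vS) {C : Chart K}
    {U : NormalAffine C.L} (N : DVal K → ℝ) (heq : ∀ v, N v = bet s v) (w0 : DVal C.L) (e0 : ℕ)
    (hreg : ∀ f ∈ U.R, w0.Reg f) (hover : Over w0 vS e0) {P : DVal C.L → ℝ} (hP : P ∈ Prin C.L)
    (hPN : ∀ (w' : DVal C.L) (v' : DVal K) (e' : ℕ), Over w' v' e' → (∀ f ∈ U.R, w'.Reg f) →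
      (∀ t : U.R, w'.Pos (t : C.L) → t ∈ cen U w0 hreg) → e' * N v' = P w') :
    IsLocalRing' U.R w0 := by
  set ϕ := algebraMap K C.L with hϕ
  obtain ⟨m, r, g, hg, hPg⟩ := exists_rep hP
  obtain ⟨ℓ, hℓ1, hℓk⟩ := exists_functional
  set p := cen U w0 hreg with hpdef
  have hp : p.IsPrime := cen_prime w0 hreg
  have hx : ∀ t : U.R, t ∈ p ↔ w0.Pos (t : C.L) := fun t => Iff.rfl
  have hya : s.y 2 ≠ 0 := s.y_ne _
  have hyb : s.y 1 ≠ 0 := s.y_ne _
  have hya' : ϕ (s.y 2) ≠ 0 := map_ne hya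
  have hyb' : ϕ (s.y 1) ≠ 0 := map_ne hyb
  -- valuations through the point
  let Thr : DVal C.L → Prop := fun w => (∀ f ∈ U.R, w.Reg f) ∧ ∀ t : U.R, w.Pos (t : C.L) → t ∈ p
  let T : ℕ → DVal C.L → ℤ := fun k w => max 0 (-w.ord (ϕ (s.y k)))
  -- the rational identity
  have hrat : ∀ w, Thr w → ((T 2 w + T 1 w : ℤ) : ℚ) = ∑ i, ℓ (r i) * (w.ord (g i) : ℚ) := by
    intro w hw
    obtain ⟨v, e, hwv⟩ := exists_under w
    have h1 : (e : ℝ) * bet s v = ∑ i, r i * (w.ord (g i) : ℝ) := by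
      rw [← heq v, hPN w v e hwv hw.1 hw.2, hPg]
    have h2 : (e : ℝ) * bet s v = ((T 3 w + T 2 w : ℤ) : ℚ) • (1 : ℝ)
        - ((T 2 w + T 1 w : ℤ) : ℚ) • kap := by
      change (e : ℝ) * ((Th s 3 v + Th s 2 v) - kap * (Th s 2 v + Th s 1 v)) = _
      have e1 := ThZ_over s 1 hwv
      have e2 := ThZ_over s 2 hwv
      have e3 := ThZ_over s 3 hwv
      change _ = T 1 w at e1
      change _ = T 2 w at e2
      change _ = T 3 w at e3
      rw [← e1, ← e2, ← e3, Th_cast, Th_cast, Th_cast, Rat.smul_def, Rat.smul_def]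
      push_cast
      ring
    have h3 : (∑ i, r i * (w.ord (g i) : ℝ)) = ∑ i, ((w.ord (g i) : ℤ) : ℚ) • r i := by
      refine Finset.sum_congr rfl fun i _ => ?_
      rw [Algebra.smul_def, mul_comm]
      simp
    rw [h2, h3] at h1
    have h4 := congrArg ℓ h1
    rw [map_sub, map_smul, map_smul, hℓ1, hℓk, map_sum] at h4
    simp only [map_smul, smul_eq_mul, mul_zero, mul_neg, mul_one, zero_sub, neg_neg] at h4
    rw [h4]
    exact Finset.sum_congr rfl fun i _ => mul_comm _ _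
  -- common denominator
  obtain ⟨M, hM, e, he⟩ : ∃ M : ℕ, 0 < M ∧ ∃ e : Fin m → ℤ, ∀ i, (M : ℚ) * ℓ (r i) = e i := by
    refine ⟨∏ i, (ℓ (r i)).den, Finset.prod_pos fun i _ => (ℓ (r i)).den_pos,
      fun i => (∏ j ∈ Finset.univ.erase i, ((ℓ (r j)).den : ℤ)) * (ℓ (r i)).num, fun i => ?_⟩
    rw [← Finset.prod_erase_mul Finset.univ (fun j => (ℓ (r j)).den) (Finset.mem_univ i)]
    push_cast
    rw [mul_assoc, Rat.den_mul_eq_num]
  set G : C.L := ∏ i, g i ^ e i with hG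
  have hG0 : G ≠ 0 := Finset.prod_ne_zero_iff.2 fun i _ => zpow_ne_zero _ (hg i)
  have hGord : ∀ w, Thr w → w.ord G = M * (T 2 w + T 1 w) := by
    intro v hv
    rw [hG, ord_zprod' v g hg]
    have h1 := hrat v hv
    have h2 : ((∑ i, v.ord (g i) * e i : ℤ) : ℚ) =
        (((M : ℤ) * (T 2 v + T 1 v) : ℤ) : ℚ) := by
      push_cast at h1 ⊢
      rw [h1, Finset.mul_sum]
      refine Finset.sum_congr rfl fun i _ => ?_
      rw [← he i]
      ring
    exact_mod_cast h2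
  have hT0 : ∀ k v, 0 ≤ T k v := fun k v => le_max_left _ _
  have hT1 : ∀ k v, -v.ord (ϕ (s.y k)) ≤ T k v := fun k v => le_max_right _ _
  have hmem : ∀ F : C.L, F ≠ 0 → (∀ v, Thr v → 0 ≤ v.ord F) → LMem U p F := by
    intro F _ hF
    refine hart hp ?_
    intro w hw hwx
    right
    exact hF w ⟨hw.1, hwx⟩
  have hMZ : (0 : ℤ) < M := by exact_mod_cast hM
  have hthr : Thr w0 := ⟨hreg, fun t ht => ht⟩
  have htriv : ∀ k, w0.ord (ϕ (s.y k)) = 0 := by
    intro k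
    rw [hover.2 _ (s.y_ne k), s.triv vS hvS, mul_zero]
  have hGS : w0.ord G = 0 := by
    have h1 : ∀ k, T k w0 = 0 := by
      intro k
      change max 0 (-w0.ord (ϕ (s.y k))) = 0
      rw [htriv k]
      rfl
    rw [hGord w0 hthr, h1, h1]
    simp
  -- units of the local ring
  have hunit : ∀ F : C.L, F ≠ 0 → LMem U p F → w0.ord F = 0 → LMem U p F⁻¹ := by
    intro F hF0 hF hFS
    obtain ⟨t, ht, htF⟩ := hF
    have ht0 : (t : C.L) ≠ 0 := fun h0 => ht ((hx t).2 (Or.inl h0))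
    have hts : w0.ord (t : C.L) = 0 := by
      have h1 := w0.ord_nonneg ht0 (hreg _ t.2)
      have h2 : ¬ 0 < w0.ord (t : C.L) := fun h => ht ((hx t).2 (Or.inr h))
      omega
    have h3 : (⟨_, htF⟩ : U.R) ∉ p := by
      rw [hx]
      rintro (h | h)
      · exact mul_ne_zero ht0 hF0 h
      · change 0 < w0.ord ((t : C.L) * F) at h
        rw [w0.map_mul _ _ ht0 hF0, hts, hFS] at h
        exact lt_irrefl _ h
    have h4 := lmem_mul hp (lmem_of_R hp t.2) (lmem_inv h3)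
    have h5 : (t : C.L) * ((t : C.L) * F)⁻¹ = F⁻¹ := by
      field_simp
    have h6 : ((⟨_, htF⟩ : U.R) : C.L) = (t : C.L) * F := rfl
    rwa [h6, h5] at h4
  have hGm : LMem U p G := by
    refine hmem G hG0 fun v hv => ?_
    rw [hGord v hv]
    exact mul_nonneg hMZ.le (add_nonneg (hT0 _ _) (hT0 _ _))
  have hGi : LMem U p G⁻¹ := hunit G hG0 hGm hGS
  have hpowmem : ∀ k, (k = 1 ∨ k = 2) → LMem U p (ϕ (s.y k) ^ M) := by
    intro k hk
    have hyk : ϕ (s.y k) ≠ 0 := map_ne (s.y_ne k)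
    have h1 : LMem U p (ϕ (s.y k) ^ M * G) := by
      refine hmem _ (mul_ne_zero (pow_ne_zero _ hyk) hG0) fun v hv => ?_
      rw [v.map_mul _ _ (pow_ne_zero _ hyk) hG0, v.ord_pow hyk, hGord v hv, ← mul_add]
      refine mul_nonneg hMZ.le ?_
      have h2 := hT1 k v
      have h3 := hT0 1 v
      have h4 := hT0 2 v
      rcases hk with rfl | rfl <;> omega
    have h2 := lmem_mul hp h1 hGi
    rwa [mul_assoc, mul_inv_cancel₀ hG0, mul_one] at h2
  have hymem : ∀ k, (k = 1 ∨ k = 2) → LMem U p (ϕ (s.y k)) := by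
    intro k hk
    refine lmem_of_root hp (Polynomial.X ^ M - Polynomial.C (ϕ (s.y k) ^ M))
      (Polynomial.monic_X_pow_sub_C _ hM.ne') (fun j => ?_) (by simp)
    rw [Polynomial.coeff_sub, Polynomial.coeff_X_pow, Polynomial.coeff_C]
    have h1 : ∀ f g : C.L, LMem U p f → LMem U p g → LMem U p (f - g) := fun f g hf hg =>
      (loc hp).sub_mem hf hg
    apply h1
    · split_ifs
      · exact (loc hp).one_mem
      · exact (loc hp).zero_mem
    · split_ifs
      · exact hpowmem k hk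
      · exact (loc hp).zero_mem
  have ha : LMem U p (ϕ d.a) := by
    have := hunit (ϕ (s.y 2)) hya' (hymem 2 (Or.inr rfl)) (htriv 2)
    rwa [← map_inv₀, s.y2, inv_inv] at this
  have hb : LMem U p (ϕ d.b) := by
    have := hunit (ϕ (s.y 1)) hyb' (hymem 1 (Or.inl rfl)) (htriv 1)
    rwa [← map_inv₀, s.y1, inv_inv] at this
  have halg : ∀ f : K, IsAlgebraic (Algebra.adjoin ℂ (Set.range ![d.a, d.b, d.c])) f := by
    have h1 := s.alg 1 le_rfl
    rw [s.y1, s.y2, inv_inv, inv_inv] at h1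
    exact h1
  have hmapv : (fun j => ϕ (![d.a, d.b, d.c] j)) = ![ϕ d.a, ϕ d.b, ϕ d.c] := by
    funext j
    fin_cases j <;> rfl
  have hmapv2 : (fun j => ϕ (![d.a, d.b] j)) = ![ϕ d.a, ϕ d.b] := by
    funext j
    fin_cases j <;> rfl
  let ψ : K →ₐ[ℂ] C.L := IsScalarTower.toAlgHom ℂ K C.L
  have hψ : ∀ f, ψ f = ϕ f := fun f => rfl
  have hind : AlgebraicIndependent ℂ ![ϕ d.a, ϕ d.b, ϕ d.c] := by
    have h1 := d.ind.map' (f := ψ) (algebraMap K C.L).injective
    rw [← hmapv]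
    exact h1
  have halg' : ∀ f : C.L, IsAlgebraic
      (Algebra.adjoin ℂ (Set.range ![ϕ d.a, ϕ d.b, ϕ d.c])) f := by
    intro f
    have hbas : IsTranscendenceBasis ℂ ![d.a, d.b, d.c] := by
      rw [d.ind.isTranscendenceBasis_iff_isAlgebraic]
      exact ⟨halg⟩
    have htr : Algebra.trdeg ℂ K = 3 := by
      rw [← hbas.cardinalMk_eq_trdeg]
      simp
    have htr2 : Algebra.trdeg ℂ C.L = 3 := by
      rw [← htr]
      have h3 : Algebra.trdeg K C.L = 0 := trdeg_eq_zero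
      rw [← trdeg_add_eq (R := ℂ) (S := K) (A := C.L), h3, add_zero]
    have h1 : IsTranscendenceBasis ℂ ![ϕ d.a, ϕ d.b, ϕ d.c] := by
      refine hind.isTranscendenceBasis_of_trdeg_le ?_ ?_
      · rw [htr2]
        exact_mod_cast Cardinal.natCast_lt_aleph0 (n := 3)
      · rw [htr2]
        simp
    exact h1.isAlgebraic.1 f
  refine primeOf' (ϕ d.a) (ϕ d.b) (ϕ d.c) hind halg' w0 ?_ hreg ha hb
  intro q hq
  have h1 : aeval ![ϕ d.a, ϕ d.b] q = ϕ (aeval ![d.a, d.b] q) := by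
    rw [← hmapv2]
    exact (MvPolynomial.comp_aeval_apply (φ := ψ) (f := ![d.a, d.b]) q).symm
  have h2 : aeval ![d.a, d.b] q ≠ 0 := by
    intro h0
    have hab : AlgebraicIndependent ℂ ![d.a, d.b] := by
      have h7 : (![d.a, d.b, d.c] ∘ (Fin.castSucc : Fin 2 → Fin 3)) = ![d.a, d.b] := by
        funext j
        fin_cases j <;> rfl
      rw [← h7]
      exact d.ind.comp _ (Fin.castSucc_injective 2)
    exact hq ((algebraicIndependent_iff.1 hab) q h0)
  rw [h1, hover.2 _ h2, hvS.1 q hq, mul_zero]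

theorem b_step' {d : Dat K} (s : Sq d) (vS : DVal K)
    (hvS : IsS d vS) (Y : AlgSpace K) (N : DVal K → ℝ) (hN : Y.RCar N)
    (heq : ∀ v, N v = bet s v) : Y.Prime vS := by
  obtain ⟨i, w0, e0, hreg, hover, P, hP, hPN⟩ := exists_local hN vS
  exact ⟨i, w0, e0, hover, b_chart s vS hvS N heq w0 e0 hreg hover hP hPN⟩

end Pool.Agent.Q42.KM
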