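import Mathlib
import Pool.Agent.Q42.KM.NoLC

/-!
# Projective varieties are algebraic spaces
-/

set_option autoImplicit false

namespace Pool.Agent.Q42.KM

open Pool.Agent.H436R3.Fol Pool.Agent.TH202 Pool.Agent.Y181

variable {K : Type} [Field K] [Algebra ℂ K] [Algebra.EssFiniteType ℂ K]

theorem over_self {Y : Model K} {i : (ofModel Y).ι} {w : DVal ((ofModel Y).chart i).L} {v : DVal K}
    {e : ℕ} (h : Over w v e) : e = 1 ∧ ∀ f : K, f ≠ 0 → v.ord f = (show DVal K from w).ord f := by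
  have h1 : ∀ f : K, f ≠ 0 → (show DVal K from w).ord f = e * v.ord f := h.2
  have he : e = 1 := by
    obtain ⟨f, hf, hf1⟩ := (show DVal K from w).surj
    have h2 := h1 f hf
    rw [hf1] at h2
    have h3 : (e : ℤ) ∣ 1 := ⟨_, h2⟩
    have h4 := Int.le_of_dvd one_pos h3
    have h5 := h.1
    omega
  refine ⟨he, fun f hf => ?_⟩
  rw [h1 f hf, he, Nat.cast_one, one_mul]

theorem localRing_congr {S : Subalgebra ℂ K} {v w : DVal K}
    (h : ∀ f : K, f ≠ 0 → v.ord f = w.ord f) (hw : IsLocalRing' S w) : IsLocalRing' S v := by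
  have hreg : ∀ f, v.Reg f ↔ w.Reg f := by
    intro f
    by_cases hf : f = 0
    · exact ⟨fun _ => Or.inl hf, fun _ => Or.inl hf⟩
    · unfold DVal.Reg
      rw [h f hf]
  refine ⟨fun f hf => (hreg f).2 (hw.1 f hf), fun f hf => ?_⟩
  obtain ⟨a, b, ha, hb, hb0, hb1, hab⟩ := hw.2 f ((hreg f).1 hf)
  exact ⟨a, b, ha, hb, hb0, by rw [h b hb0]; exact hb1, hab⟩

/-- The prime divisors of a projective variety and of the algebraic space agree. -/
theorem ofModel_prime (Y : Model K) (v : DVal K) : (ofModel Y).Prime v ↔ IsPrimeOn Y v := by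
  constructor
  · rintro ⟨i, w, e, h, hw⟩
    exact ⟨i, localRing_congr (over_self h).2 hw⟩
  · rintro ⟨i, hv⟩
    refine ⟨i, v, 1, ⟨one_pos, fun f _ => ?_⟩, hv⟩
    change v.ord f = _
    rw [Nat.cast_one, one_mul]

/-- The `ℝ`-Cartier divisors agree. -/
theorem ofModel_rcar (Y : Model K) (D : DVal K → ℝ) : (ofModel Y).RCar D ↔ IsRCar Y D := by
  constructor
  · intro h x
    obtain ⟨m, hm, hle⟩ := Ideal.exists_le_maximal _ x.prime.ne_top
    obtain ⟨P, hP, h1⟩ := h x.i m hm
    refine ⟨P, hP, fun v hv => ?_⟩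
    have h2 := (x.thr_iff v).1 hv
    have h3 := h1 v v 1 ⟨one_pos, fun f _ => by
      change v.ord f = _
      rw [Nat.cast_one, one_mul]⟩ h2.1 fun s hs => hle (h2.2 s hs)
    rwa [Nat.cast_one, one_mul] at h3
  · intro h i p hp
    obtain ⟨P, hP, h1⟩ := h ⟨i, p, hp.isPrime⟩
    refine ⟨P, hP, fun w v e hov hw hwp => ?_⟩
    obtain ⟨he, hs⟩ := over_self hov
    have h2 : (show DVal K from w).ord = (show DVal K from w).ord := rfl
    have h3 : Pt.Thr (X := Y) ⟨i, p, hp.isPrime⟩ v := by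
      rw [Pt.thr_iff]
      have hreg : ∀ f, v.Reg f ↔ (show DVal K from w).Reg f := by
        intro f
        by_cases hf : f = 0
        · exact ⟨fun _ => Or.inl hf, fun _ => Or.inl hf⟩
        · unfold DVal.Reg
          rw [hs f hf]
      have hpos : ∀ f, v.Pos f ↔ (show DVal K from w).Pos f := by
        intro f
        by_cases hf : f = 0
        · exact ⟨fun _ => Or.inl hf, fun _ => Or.inl hf⟩
        · unfold DVal.Pos
          rw [hs f hf]
      exact ⟨fun f hf => (hreg f).2 (hw f hf), fun s hsv => hwp s ((hpos _).1 hsv)⟩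
    rw [he, Nat.cast_one, one_mul, h1 v h3]
    exact prin_congr hs hP

/-- A projective weak log canonical model is a weak log canonical model. -/
theorem ofModel_weak {d : ℕ} {T : Foliation K d} {X : Model K} {B β D : DVal K → ℝ} {Y : Model K}
    {E : DVal K → ℝ} (h : IsWeakLCModel T X B β D Y E) :
    IsWeakLCSpace T X B β D (ofModel Y) E := by
  obtain ⟨h1, ⟨h2, h3⟩, h4, h5⟩ := h
  refine ⟨fun w hw => h1 w ((ofModel_prime Y w).1 hw), ⟨(ofModel_rcar Y E).2 h2, fun w hw =>
    h3 w ((ofModel_prime Y w).1 hw)⟩, ⟨Y, h4⟩, fun w hw hn => h5 w hw fun h =>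
    hn ((ofModel_prime Y w).2 h)⟩

end Pool.Agent.Q42.KM
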